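import Mathlib

/-!
Definitions for MP_245269_an (higher-order weak-coupling asymptotics), for bounded generators.
-/

set_option autoImplicit false

namespace Pool.Agent.H454Z.WC

open MeasureTheory

variable {B : Type} [NormedAddCommGroup B] [NormedSpace ℝ B]

/-- The (semi)group `U_t = exp (t A)` generated by a bounded operator `A`, for all real `t`. -/
noncomputable def U (A : B →L[ℝ] B) (t : ℝ) : B →L[ℝ] B := NormedSpace.exp (t • A)

/-- The interaction picture operator `L_t = (U⁰_t)⁻¹ L U⁰_t`. -/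
noncomputable def Lt (L0 L : B →L[ℝ] B) (t : ℝ) : B →L[ℝ] B :=
  Ring.inverse (U L0 t) * L * U L0 t

/-- The product `L_{t₁} L_{t₂} ⋯ L_{t_k}` for the list of times `[t₁, …, t_k]`. -/
noncomputable def prodL (L0 L : B →L[ℝ] B) (l : List ℝ) : B →L[ℝ] B := (l.map (Lt L0 L)).prod

/-- The iterated integral `∫_{-∞}^{t} dt₁ ∫_{-∞}^{t₁} dt₂ ⋯ ∫_{-∞}^{t_{k-1}} dt_k F [t₁, …, t_k]`
of a function with values in `[0, ∞]`. -/
noncomputable def iterInt : ℕ → ℝ → (List ℝ → ENNReal) → ENNReal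
  | 0, _, F => F []
  | k + 1, t, F => ∫⁻ s in Set.Iio t, iterInt k s (fun l => F (s :: l))

/-- The operator `∑_j λ^j R_j`, polynomial in `λ`. -/
noncomputable def polyOp {E : Type} [NormedAddCommGroup E] [NormedSpace ℝ E] {m : ℕ}
    (R : Fin m → (E →L[ℝ] E)) (lam : ℝ) : E →L[ℝ] E := ∑ j : Fin m, lam ^ (j : ℕ) • R j

/-- The range `P B` of the projection. -/
abbrev PB (P : B →L[ℝ] B) : Type := LinearMap.range (P : B →ₗ[ℝ] B)

/-- The inclusion `P B → B`. -/
def incl (P : B →L[ℝ] B) : PB P →L[ℝ] B := (LinearMap.range (P : B →ₗ[ℝ] B)).subtypeL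

/-- The reduced dynamics `P (U⁰_{t/λ²})⁻¹ U^λ_{t/λ²} P`. -/
noncomputable def reduced (P L0 L : B →L[ℝ] B) (t lam : ℝ) : B →L[ℝ] B :=
  P * Ring.inverse (U L0 (t / lam ^ 2)) * U (L0 + lam • L) (t / lam ^ 2) * P

/-- The difference, on `P B`, of the reduced dynamics and `exp (t G) r`. -/
noncomputable def err (P L0 L : B →L[ℝ] B) (G r : PB P →L[ℝ] PB P) (t lam : ℝ) :
    PB P →L[ℝ] B :=
  (reduced P L0 L t lam).comp (incl P) - (incl P).comp (U G t * r)

/-- There are `r` and `G`, operators on `P B` polynomial in `λ`, such that for every `t > 0` the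
reduced dynamics equals `exp (t G) r + O(λ^(2n+2))` as `λ → 0+`. -/
def HasExpansion (P L0 L : B →L[ℝ] B) (n : ℕ) : Prop :=
  ∃ (m m' : ℕ) (R : Fin m → (PB P →L[ℝ] PB P)) (G : Fin m' → (PB P →L[ℝ] PB P)),
    ∀ t : ℝ, 0 < t →
      (fun lam : ℝ => ‖err P L0 L (polyOp G lam) (polyOp R lam) t lam‖)
        =O[nhdsWithin 0 (Set.Ioi 0)] (fun lam : ℝ => lam ^ (2 * n + 2))

/-- The norm of `P L_{t₁} ⋯ L_{t_k} P`, in `[0, ∞]`. -/
noncomputable def corrNorm (P L0 L : B →L[ℝ] B) (l : List ℝ) : ENNReal :=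
  ‖P * prodL L0 L l * P‖ₑ

end Pool.Agent.H454Z.WC
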