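import Pool.Agent.H454Z.WC.Prod

set_option autoImplicit false

namespace Pool.Agent.H454Z.WC

open MeasureTheory Set Filter Topology

variable {N : ℕ}

/-- the initial vector -/
def e1 (N : ℕ) : Sp N := (1, 0, 0)

/-- the full generator -/
noncomputable def A (N : ℕ) (lam : ℝ) : Sp N →L[ℝ] Sp N := L0 N + lam • L N

/-- the trajectory of the initial vector -/
noncomputable def w (N : ℕ) (lam t : ℝ) : Sp N := U (A N lam) t (e1 N)

theorem w_zero (lam : ℝ) : w N lam 0 = e1 N := by simp [w, U_zero]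

theorem map_A (ψ : Sp N →L[ℝ] ℝ) (lam : ℝ) (v : Sp N) :
    ψ (A N lam v) = ψ (L0 N v) + lam * ψ (L N v) := by
  simp [A]

theorem c1_w (lam t : ℝ) : c1 (w N lam t) = 1 := by
  have := eigen_U (A N lam) c1 0 (fun v => by simp [map_A]) (e1 N) t
  rw [w, this]
  simp [e1, c1]

theorem hasDerivAt_ev (lam : ℝ) (i : Fin (N + 1)) (y : I) (t : ℝ) :
    HasDerivAt (fun s => ev i y (w N lam s))
      (-(y : ℝ) ^ 3 * ev i y (w N lam t) + lam * ev i y (L N (w N lam t))) t := by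
  have := hasDerivAt_U (A N lam) (ev i y) (e1 N) t
  rw [map_A, ev_L0] at this
  exact this

theorem ev_bounds {lam : ℝ} (hl : 0 ≤ lam) (y : I) (i : Fin (N + 1)) :
    ∀ t, 0 ≤ t → 0 ≤ ev i y (w N lam t) ∧
      ((y : ℝ) ^ 3) ^ (i : ℕ) * ev i y (w N lam t) ≤ lam ^ ((i : ℕ) + 1) * t ∧
      (y : ℝ) ^ 3 * ((y : ℝ) ^ 3) ^ (i : ℕ) * ev i y (w N lam t) ≤ lam ^ ((i : ℕ) + 1) := by
  have hx : 0 ≤ (y : ℝ) ^ 3 := pow_nonneg y.2.1 3
  induction i using Fin.induction with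
  | zero =>
    apply ode_bounds (b := fun t => lam * ev 0 y (L N (w N lam t))) hx (pow_nonneg hx _)
      (hasDerivAt_ev lam 0 y)
    · rw [w_zero]; rfl
    · intro t _
      simp [ev_L_zero, c1_w, hl]
    · intro t _
      simp [ev_L_zero, c1_w]
  | succ j ih =>
    apply ode_bounds (b := fun t => lam * ev j.succ y (L N (w N lam t))) hx (pow_nonneg hx _)
      (hasDerivAt_ev lam j.succ y)
    · rw [w_zero]; rfl
    · intro t ht
      rw [ev_L_succ]
      exact mul_nonneg hl (ih t ht).1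
    · intro t ht
      rw [ev_L_succ]
      have := mul_le_mul_of_nonneg_left (ih t ht).2.2 hl
      simp only [Fin.val_castSucc, Fin.val_succ] at this ⊢
      calc ((y : ℝ) ^ 3) ^ ((j : ℕ) + 1) * (lam * ev j.castSucc y (w N lam t))
          = lam * ((y : ℝ) ^ 3 * ((y : ℝ) ^ 3) ^ (j : ℕ) * ev j.castSucc y (w N lam t)) := by ring
        _ ≤ lam * lam ^ ((j : ℕ) + 1) := this
        _ = lam ^ ((j : ℕ) + 1 + 1) := by ring

theorem ev_lower {lam : ℝ} (hl : 0 ≤ lam) (y : I) {t : ℝ} (ht : 0 ≤ t) :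
    lam * t - (y : ℝ) ^ 3 * lam * t ^ 2 / 2 ≤ ev 0 y (w N lam t) := by
  have hx : 0 ≤ (y : ℝ) ^ 3 := pow_nonneg y.2.1 3
  have := le_of_deriv
    (g := fun s => ev 0 y (w N lam s) - lam * s + (y : ℝ) ^ 3 * lam / 2 * s ^ 2)
    (g' := fun s => (y : ℝ) ^ 3 * (lam * s - ev 0 y (w N lam s)))
    (fun s => (((hasDerivAt_ev lam 0 y s).sub ((hasDerivAt_id s).const_mul lam)).add
      ((hasDerivAt_pow 2 s).const_mul ((y : ℝ) ^ 3 * lam / 2))).congr_deriv (by
        rw [ev_L_zero, c1_w]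
        simp
        ring))
    (fun s hs => by
      have := (ev_bounds (N := N) hl y 0 s hs).2.1
      simp at this
      exact mul_nonneg hx (by linarith)) ht
  have h0 : ev 0 y (e1 N) = 0 := rfl
  simp only [w_zero, h0] at this
  linarith

/-- the memory term -/
noncomputable def mem (N : ℕ) (lam : ℝ) : Sp N →L[ℝ] ℝ :=
  ∑ i : Fin (N + 1), lam ^ (N + 1 - (i : ℕ)) • (ell i).comp (st i)

theorem mem_apply (lam : ℝ) (v : Sp N) :
    mem N lam v = ∑ i : Fin (N + 1), lam ^ (N + 1 - (i : ℕ)) * ell i (st i v) := by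
  simp [mem]

theorem conserved (lam : ℝ) (v : Sp N) :
    (c2 (N := N) + mem N lam) (A N lam v) = lam ^ (N + 2) * c1 v := by
  rw [map_A]
  simp only [add_apply, mem_apply, c2_L0, c2_L, st_L0, map_neg, ell_mul]
  rw [Fin.sum_univ_castSucc, Fin.sum_univ_succ (fun i : Fin (N + 1) =>
    lam ^ (N + 1 - (i : ℕ)) * ell i (st i (L N v)))]
  simp only [st_L_zero, st_L_succ, Fin.val_zero, ell_const, Fin.val_succ, Fin.val_castSucc,
    Fin.val_last]
  have e : ∀ j : Fin N, lam ^ (N + 1 - (j : ℕ)) = lam * lam ^ (N + 1 - ((j : ℕ) + 1)) := by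
    intro j
    rw [← pow_succ']
    congr 1
    omega
  simp only [e, mul_add, Finset.mul_sum, mul_neg, Finset.sum_neg_distrib, mul_assoc]
  simp only [Nat.add_sub_cancel_left, pow_one, Nat.sub_zero]
  ring

theorem c2_w (lam t : ℝ) : c2 (w N lam t) = lam ^ (N + 2) * t - mem N lam (w N lam t) := by
  have hd : ∀ s, HasDerivAt (fun s => (c2 (N := N) + mem N lam) (w N lam s) - lam ^ (N + 2) * s) 0 s := by
    intro s
    have := (hasDerivAt_U (A N lam) (c2 (N := N) + mem N lam) (e1 N) s).sub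
      ((hasDerivAt_id s).const_mul (lam ^ (N + 2)))
    refine this.congr_deriv ?_
    rw [conserved]
    have := c1_w (N := N) lam s
    unfold w at this
    rw [this]
    simp
  have hc := is_const_of_deriv_eq_zero (fun s => (hd s).differentiableAt) (fun s => (hd s).deriv) t 0
  have h0 : (c2 (N := N) + mem N lam) (e1 N) = 0 := by
    simp only [add_apply, mem_apply]
    have : ∀ i : Fin (N + 1), st i (e1 N) = 0 := fun i => rfl
    have h2 : c2 (e1 N) = 0 := rfl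
    simp [this, h2]
  rw [w_zero, h0, add_apply] at hc
  linarith

theorem int_upper {h : ℝ → ℝ} (hc : Continuous h) {δ a b : ℝ} (h0 : 0 ≤ δ) (h1 : δ ≤ 1)
    (hb : 0 ≤ b) (ha : ∀ y ∈ Icc 0 δ, h y ≤ a) (hb' : ∀ y ∈ Icc δ 1, h y ≤ b) :
    ∫ y in (0 : ℝ)..1, h y ≤ a * δ + b := by
  rw [← intervalIntegral.integral_add_adjacent_intervals (hc.intervalIntegrable 0 δ)
    (hc.intervalIntegrable δ 1)]
  have e1 := intervalIntegral.integral_mono_on (μ := volume) h0 (hc.intervalIntegrable 0 δ)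
    (intervalIntegrable_const (c := a)) ha
  have e2 := intervalIntegral.integral_mono_on (μ := volume) h1 (hc.intervalIntegrable δ 1)
    (intervalIntegrable_const (c := b)) hb'
  simp only [intervalIntegral.integral_const, smul_eq_mul] at e1 e2
  nlinarith

theorem int_lower {h : ℝ → ℝ} (hc : Continuous h) {δ a : ℝ} (h0 : 0 ≤ δ) (h1 : δ ≤ 1)
    (ha : ∀ y ∈ Icc 0 δ, a ≤ h y) (hb' : ∀ y ∈ Icc δ 1, 0 ≤ h y) :
    a * δ ≤ ∫ y in (0 : ℝ)..1, h y := by
  rw [← intervalIntegral.integral_add_adjacent_intervals (hc.intervalIntegrable 0 δ)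
    (hc.intervalIntegrable δ 1)]
  have e1 := intervalIntegral.integral_mono_on (μ := volume) h0 (intervalIntegrable_const (c := a))
    (hc.intervalIntegrable 0 δ) ha
  have e2 := intervalIntegral.integral_nonneg (μ := volume) h1 hb'
  simp only [intervalIntegral.integral_const, smul_eq_mul] at e1
  nlinarith

theorem ell_nonneg {lam : ℝ} (hl : 0 ≤ lam) (i : Fin (N + 1)) {t : ℝ} (ht : 0 ≤ t) :
    0 ≤ ell i (st i (w N lam t)) := by
  rw [ell_apply]
  apply intervalIntegral.integral_nonneg zero_le_one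
  intro y hy
  exact mul_nonneg (pow_nonneg (pow_nonneg hy.1 _) _) (ev_bounds hl (pr y) i t ht).1

theorem mem_upper {ε : ℝ} (h0 : 0 < ε) (h1 : ε ≤ 1) :
    mem N (ε ^ 3) (w N (ε ^ 3) (1 / (ε ^ 3) ^ 2)) ≤ 2 * (N + 1) * ((ε ^ 3) ^ N * ε) := by
  set lam := ε ^ 3 with hlam
  have hl : 0 < lam := pow_pos h0 3
  have hT : 0 ≤ 1 / lam ^ 2 := by positivity
  rw [mem_apply]
  have key : ∀ i : Fin (N + 1), lam ^ (N + 1 - (i : ℕ)) * ell i (st i (w N lam (1 / lam ^ 2))) ≤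
      2 * (lam ^ N * ε) := by
    intro i
    have hi : ell i (st i (w N lam (1 / lam ^ 2))) ≤
        lam ^ ((i : ℕ) + 1) * (1 / lam ^ 2) * ε + lam ^ ((i : ℕ) + 1) / lam := by
      rw [ell_apply]
      apply int_upper (cont_int _ _) h0.le h1 (by positivity)
      · intro y hy
        have := (ev_bounds hl.le (pr y) i _ hT).2.1
        rw [pr_of_mem ⟨hy.1, hy.2.trans h1⟩] at this
        exact this
      · intro y hy
        have h2 := (ev_bounds hl.le (pr y) i _ hT).2.2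
        have h3 := (ev_bounds hl.le (pr y) i _ hT).1
        rw [pr_of_mem ⟨h0.le.trans hy.1, hy.2⟩] at h2
        rw [le_div_iff₀ hl]
        have h4 : lam ≤ y ^ 3 := pow_le_pow_left₀ h0.le hy.1 3
        have h5 : 0 ≤ (y ^ 3) ^ (i : ℕ) * ev i (pr y) (w N lam (1 / lam ^ 2)) :=
          mul_nonneg (pow_nonneg (hl.le.trans h4) _) h3
        rw [← ev_eq]
        nlinarith
    have e : lam ^ (N + 1 - (i : ℕ)) * lam ^ ((i : ℕ) + 1) = lam ^ N * lam ^ 2 := by
      rw [← pow_add, ← pow_add]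
      congr 1
      have := i.2
      omega
    have hle : lam ≤ ε := by
      rw [hlam]
      nlinarith [pow_le_one₀ h0.le h1 (n := 2)]
    calc lam ^ (N + 1 - (i : ℕ)) * ell i (st i (w N lam (1 / lam ^ 2)))
        ≤ lam ^ (N + 1 - (i : ℕ)) *
          (lam ^ ((i : ℕ) + 1) * (1 / lam ^ 2) * ε + lam ^ ((i : ℕ) + 1) / lam) :=
          mul_le_mul_of_nonneg_left hi (by positivity)
      _ = (lam ^ (N + 1 - (i : ℕ)) * lam ^ ((i : ℕ) + 1)) * (1 / lam ^ 2 * ε + 1 / lam) := by ring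
      _ = lam ^ N * (ε + lam) := by
          rw [e]
          field_simp
      _ ≤ 2 * (lam ^ N * ε) := by nlinarith [pow_pos hl N]
  calc _ ≤ ∑ _i : Fin (N + 1), 2 * (lam ^ N * ε) := Finset.sum_le_sum fun i _ => key i
    _ = _ := by
      simp
      ring

theorem mem_lower {ε : ℝ} (h0 : 0 < ε) (h1 : ε ≤ 1) :
    (ε ^ 3) ^ N * ε ^ 2 / 2 ≤ mem N (ε ^ 3) (w N (ε ^ 3) (1 / (ε ^ 3) ^ 2)) := by
  set lam := ε ^ 3 with hlam
  have hl : 0 < lam := pow_pos h0 3
  have hT : 0 ≤ 1 / lam ^ 2 := by positivity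
  rw [mem_apply, Fin.sum_univ_succ]
  have h2 : 0 ≤ ∑ j : Fin N, lam ^ (N + 1 - (j.succ : ℕ)) *
      ell (j.succ : ℕ) (st j.succ (w N lam (1 / lam ^ 2))) :=
    Finset.sum_nonneg fun j _ => mul_nonneg (by positivity) (ell_nonneg hl.le _ hT)
  have h3 : 1 / (2 * lam) * ε ^ 2 ≤ ell (0 : Fin (N + 1)) (st 0 (w N lam (1 / lam ^ 2))) := by
    rw [ell_apply]
    have hε2 : ε ^ 2 ≤ 1 := pow_le_one₀ h0.le h1
    apply int_lower (cont_int _ _) (by positivity) hε2
    · intro y hy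
      have := ev_lower (N := N) hl.le (pr y) hT
      rw [pr_of_mem ⟨hy.1, hy.2.trans hε2⟩] at this
      have hy3 : y ^ 3 ≤ lam ^ 2 := by
        have := pow_le_pow_left₀ hy.1 hy.2 3
        rw [hlam]
        nlinarith
      simp only [Fin.val_zero, pow_zero, one_mul, ← ev_eq]
      refine le_trans ?_ this
      have e : lam * (1 / lam ^ 2) - y ^ 3 * lam * (1 / lam ^ 2) ^ 2 / 2 - 1 / (2 * lam) =
          (lam ^ 2 - y ^ 3) / (2 * lam ^ 3) := by
        field_simp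
        ring
      have : 0 ≤ (lam ^ 2 - y ^ 3) / (2 * lam ^ 3) := div_nonneg (by linarith) (by positivity)
      linarith
    · intro y hy
      have hy0 : 0 ≤ y := le_trans (by positivity) hy.1
      exact mul_nonneg (pow_nonneg (pow_nonneg hy0 _) _) (ev_bounds hl.le (pr y) 0 _ hT).1
  have h4 := mul_le_mul_of_nonneg_left h3 (pow_pos hl (N + 1 - ((0 : Fin (N + 1)) : ℕ))).le
  have e : lam ^ (N + 1 - ((0 : Fin (N + 1)) : ℕ)) * (1 / (2 * lam) * ε ^ 2) =
      lam ^ N * ε ^ 2 / 2 := by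
    simp only [Fin.val_zero, Nat.sub_zero]
    field_simp
    ring
  linarith

/-- no analytic function has the size of the memory term -/
theorem no_analytic (g r : ℝ → ℝ) (hg : AnalyticAt ℝ g 0) (N : ℕ) (K : ℝ)
    (hr : ∀ ε, 0 < ε → ε ≤ 1 → (ε ^ 3) ^ N * ε ^ 2 / 2 ≤ r (ε ^ 3) ∧
      r (ε ^ 3) ≤ K * ((ε ^ 3) ^ N * ε))
    (hO : (fun lam => g lam - r lam) =O[𝓝[>] 0] (fun lam => lam ^ (N + 1))) : False := by
  have hcube : Tendsto (fun ε : ℝ => ε ^ 3) (𝓝[>] 0) (𝓝[>] 0) := by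
    apply tendsto_nhdsWithin_of_tendsto_nhds_of_eventually_within
    · have : Tendsto (fun ε : ℝ => ε ^ 3) (𝓝 0) (𝓝 (0 ^ 3)) := (continuous_pow 3).tendsto 0
      simpa using this.mono_left nhdsWithin_le_nhds
    · filter_upwards [self_mem_nhdsWithin] with ε hε using pow_pos (show 0 < ε from hε) 3
  have hcube0 : Tendsto (fun ε : ℝ => ε ^ 3) (𝓝[>] 0) (𝓝 0) := hcube.mono_right nhdsWithin_le_nhds
  have hid : Tendsto (fun ε : ℝ => ε) (𝓝[>] 0) (𝓝 0) := tendsto_id.mono_left nhdsWithin_le_nhds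
  obtain ⟨C, hC⟩ := hO.bound
  have hC' := hcube.eventually hC
  have hsmall : ∀ᶠ ε : ℝ in 𝓝[>] 0, 0 < ε ∧ ε ≤ 1 := by
    filter_upwards [self_mem_nhdsWithin, hid.eventually (ge_mem_nhds one_pos)] with ε h1 h2
    exact ⟨h1, h2⟩
  -- the case of high vanishing order
  have caseA : ∀ h : ℝ → ℝ, ContinuousAt h 0 → (∀ᶠ z in 𝓝 (0 : ℝ), g z = z ^ (N + 1) * h z) →
      False := by
    intro h hh hgh
    have t1 : Tendsto (fun ε : ℝ => ε * (|h (ε ^ 3)| + C)) (𝓝[>] 0) (𝓝 (0 * (|h 0| + C))) :=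
      hid.mul ((hh.tendsto.comp hcube0).abs.add_const C)
    rw [zero_mul] at t1
    have := (t1.eventually (gt_mem_nhds (show (0 : ℝ) < 1 / 2 by norm_num))).and
      (hsmall.and (hC'.and (hcube0.eventually hgh)))
    obtain ⟨ε, h1, ⟨h2, h3⟩, h4, h5⟩ := this.exists
    have hp : 0 < (ε ^ 3) ^ N * ε ^ 2 := by positivity
    have h6 := (hr ε h2 h3).1
    rw [Real.norm_eq_abs, Real.norm_eq_abs, abs_of_pos (by positivity : 0 < (ε ^ 3) ^ (N + 1)),
      h5] at h4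
    have h7 := neg_le_of_abs_le h4
    have h8 : (ε ^ 3) ^ (N + 1) * h (ε ^ 3) ≤ (ε ^ 3) ^ (N + 1) * |h (ε ^ 3)| :=
      mul_le_mul_of_nonneg_left (le_abs_self _) (by positivity)
    have e : (ε ^ 3) ^ (N + 1) = (ε ^ 3) ^ N * ε ^ 2 * ε := by ring
    rw [e] at h7 h8
    nlinarith
  by_cases hz : ∀ᶠ z in 𝓝 (0 : ℝ), g z = 0
  · exact caseA (fun _ => 0) continuousAt_const (by simpa using hz)
  obtain ⟨m, h, hh, hh0, hgh⟩ := (hg.exists_eventuallyEq_pow_smul_nonzero_iff).mpr hz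
  simp only [sub_zero, smul_eq_mul] at hgh
  by_cases hm : N + 1 ≤ m
  · obtain ⟨d, rfl⟩ := Nat.exists_eq_add_of_le hm
    refine caseA (fun z => z ^ d * h z) ((continuous_pow d).continuousAt.mul hh.continuousAt) ?_
    filter_upwards [hgh] with z hz
    rw [hz]
    ring
  · have hmN : m ≤ N := by omega
    have t1 : Tendsto (fun ε : ℝ => |h (ε ^ 3)| - ε * (|K| + |C|)) (𝓝[>] 0)
        (𝓝 (|h 0| - 0 * (|K| + |C|))) :=
      (hh.continuousAt.tendsto.comp hcube0).abs.sub (hid.mul_const _)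
    rw [zero_mul, sub_zero] at t1
    have := (t1.eventually (lt_mem_nhds (abs_pos.mpr hh0))).and
      (hsmall.and (hC'.and (hcube0.eventually hgh)))
    obtain ⟨ε, h1, ⟨h2, h3⟩, h4, h5⟩ := this.exists
    obtain ⟨h6, h7⟩ := hr ε h2 h3
    have hp : 0 < (ε ^ 3) ^ N := by positivity
    have hr0 : 0 ≤ r (ε ^ 3) := le_trans (by positivity) h6
    rw [Real.norm_eq_abs, Real.norm_eq_abs, abs_of_pos (by positivity : 0 < (ε ^ 3) ^ (N + 1))] at h4
    have h8 : |g (ε ^ 3)| ≤ C * (ε ^ 3) ^ (N + 1) + r (ε ^ 3) := by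
      have := abs_add_le (g (ε ^ 3) - r (ε ^ 3)) (r (ε ^ 3))
      rw [sub_add_cancel, abs_of_nonneg hr0] at this
      linarith
    have h9 : (ε ^ 3) ^ N * |h (ε ^ 3)| ≤ |g (ε ^ 3)| := by
      rw [h5, abs_mul, abs_of_pos (by positivity : 0 < (ε ^ 3) ^ m)]
      apply mul_le_mul_of_nonneg_right _ (abs_nonneg _)
      exact pow_le_pow_of_le_one (by positivity) (pow_le_one₀ h2.le h3) hmN
    have h10 : C * (ε ^ 3) ^ (N + 1) ≤ |C| * ((ε ^ 3) ^ N * ε) := by
      have : (ε ^ 3) ^ (N + 1) ≤ (ε ^ 3) ^ N * ε := by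
        rw [pow_succ]
        apply mul_le_mul_of_nonneg_left _ hp.le
        nlinarith [pow_le_one₀ h2.le h3 (n := 2)]
      calc C * (ε ^ 3) ^ (N + 1) ≤ |C| * (ε ^ 3) ^ (N + 1) :=
            mul_le_mul_of_nonneg_right (le_abs_self _) (by positivity)
        _ ≤ _ := mul_le_mul_of_nonneg_left this (abs_nonneg _)
    have h11 : K * ((ε ^ 3) ^ N * ε) ≤ |K| * ((ε ^ 3) ^ N * ε) :=
      mul_le_mul_of_nonneg_right (le_abs_self _) (by positivity)
    nlinarith

end Pool.Agent.H454Z.WC
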