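import Pool.Agent.H454Z.WC.Dyn

set_option autoImplicit false

namespace Pool.Agent.H454Z.WC

open MeasureTheory Set Filter Topology

theorem analytic_polyOp {E : Type} [NormedAddCommGroup E] [NormedSpace ℝ E] {m : ℕ}
    (R : Fin m → (E →L[ℝ] E)) : AnalyticAt ℝ (polyOp R) 0 := by
  have : polyOp R = fun lam => ∑ j : Fin m, lam ^ (j : ℕ) • R j := rfl
  rw [this]
  apply Finset.analyticAt_fun_sum
  intro j _
  exact (analyticAt_id.pow _).smul analyticAt_const

theorem no_expansion (N : ℕ) {E : Type} [NormedAddCommGroup E] [NormedSpace ℝ E]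
    [CompleteSpace E] (ι : E →L[ℝ] Sp N) (v : E) (hv : ι v = e1 N) {m m' : ℕ}
    (R : Fin m → (E →L[ℝ] E)) (G : Fin m' → (E →L[ℝ] E))
    (h : (fun lam : ℝ =>
        ‖(P N * Ring.inverse (U (L0 N) (1 / lam ^ 2)) * U (L0 N + lam • L N) (1 / lam ^ 2) *
          P N).comp ι - ι.comp (U (polyOp G lam) 1 * polyOp R lam)‖)
      =O[𝓝[>] 0] (fun lam : ℝ => lam ^ (N + 1))) : False := by
  let Φ : (E →L[ℝ] E) →L[ℝ] ℝ := (c2.comp ι).comp (ContinuousLinearMap.apply ℝ E v)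
  let Ψ : (E →L[ℝ] Sp N) →L[ℝ] ℝ := c2.comp (ContinuousLinearMap.apply ℝ (Sp N) v)
  have hU : AnalyticAt ℝ (fun lam => U (polyOp G lam) 1) 0 := by
    unfold U
    simp only [one_smul]
    exact (NormedSpace.exp_analytic (𝕂 := ℝ) _).comp (analytic_polyOp G)
  have hF : AnalyticAt ℝ (fun lam => Φ (U (polyOp G lam) 1 * polyOp R lam)) 0 :=
    (Φ.analyticAt _).comp (hU.mul (analytic_polyOp R))
  refine no_analytic (fun lam => lam ^ N - Φ (U (polyOp G lam) 1 * polyOp R lam))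
    (fun lam => mem N lam (w N lam (1 / lam ^ 2))) ((analyticAt_id.pow _).sub hF) N
    (2 * (N + 1)) (fun ε h0 h1 => ⟨mem_lower h0 h1, mem_upper h0 h1⟩) ?_
  have hΨ : (fun lam : ℝ => Ψ (
        (P N * Ring.inverse (U (L0 N) (1 / lam ^ 2)) * U (L0 N + lam • L N) (1 / lam ^ 2) *
          P N).comp ι - ι.comp (U (polyOp G lam) 1 * polyOp R lam))) =O[𝓝[>] 0]
          (fun lam : ℝ => lam ^ (N + 1)) := by
    obtain ⟨C, hC⟩ := h.bound
    refine Asymptotics.IsBigO.of_bound (‖v‖ * C) ?_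
    filter_upwards [hC] with lam hlam
    rw [Real.norm_of_nonneg (ContinuousLinearMap.opNorm_nonneg _)] at hlam
    generalize ((P N * Ring.inverse (U (L0 N) (1 / lam ^ 2)) * U (L0 N + lam • L N) (1 / lam ^ 2) *
          P N).comp ι - ι.comp (U (polyOp G lam) 1 * polyOp R lam)) = T at hlam ⊢
    have h1 : ‖Ψ T‖ ≤ ‖T v‖ := (norm_fst_le (T v).2).trans (norm_snd_le (T v))
    have h2 := T.le_opNorm v
    have h3 := mul_le_mul_of_nonneg_left hlam (norm_nonneg v)
    nlinarith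
  refine hΨ.congr' ?_ EventuallyEq.rfl
  filter_upwards [self_mem_nhdsWithin] with lam hlam
  have hl : (0 : ℝ) < lam := hlam
  rw [map_sub]
  have e1' : Ψ ((P N * Ring.inverse (U (L0 N) (1 / lam ^ 2)) *
      U (L0 N + lam • L N) (1 / lam ^ 2) * P N).comp ι) = c2 (w N lam (1 / lam ^ 2)) := by
    change c2 (P N (Ring.inverse (U (L0 N) (1 / lam ^ 2))
      (U (L0 N + lam • L N) (1 / lam ^ 2) (P N (ι v))))) = _
    rw [c2_P, inverse_U, c2_U0, hv]
    rfl
  have e2 : Ψ (ι.comp (U (polyOp G lam) 1 * polyOp R lam)) =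
      Φ (U (polyOp G lam) 1 * polyOp R lam) := rfl
  rw [e1', e2, c2_w]
  have : lam ^ (N + 2) * (1 / lam ^ 2) = lam ^ N := by
    field_simp
    ring
  rw [this]
  ring

end Pool.Agent.H454Z.WC
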