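import Pool.Agent.H454Z.WC.Defs

set_option autoImplicit false

namespace Pool.Agent.H454Z.WC

open MeasureTheory Set

section general
variable {B : Type} [NormedAddCommGroup B] [NormedSpace ℝ B] [CompleteSpace B]

theorem hasDerivAt_U (A : B →L[ℝ] B) (ψ : B →L[ℝ] ℝ) (v : B) (t : ℝ) :
    HasDerivAt (fun s => ψ (U A s v)) (ψ (A (U A t v))) t := by
  have h := hasDerivAt_exp_smul_const' (𝕂 := ℝ) A t
  have h2 := ((ψ.comp (ContinuousLinearMap.apply ℝ B v)).hasFDerivAt).comp_hasDerivAt t h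
  exact h2

omit [CompleteSpace B] in
theorem U_zero (A : B →L[ℝ] B) : U A 0 = 1 := by simp [U]

theorem eigen_U (A : B →L[ℝ] B) (ψ : B →L[ℝ] ℝ) (c : ℝ) (h : ∀ v, ψ (A v) = c * ψ v) (v : B)
    (t : ℝ) : ψ (U A t v) = Real.exp (c * t) * ψ v := by
  have hd : ∀ s, HasDerivAt (fun s => Real.exp (-(c * s)) * ψ (U A s v)) 0 s := by
    intro s
    have h1 : HasDerivAt (fun s => Real.exp (-(c * s))) (Real.exp (-(c * s)) * (-c)) s := by
      have := ((hasDerivAt_id s).const_mul c).neg.exp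
      simpa using this
    have := h1.mul (hasDerivAt_U A ψ v s)
    exact this.congr_deriv (by rw [h]; ring)
  have hc := is_const_of_deriv_eq_zero (fun s => (hd s).differentiableAt) (fun s => (hd s).deriv) t 0
  simp only [mul_zero, neg_zero, Real.exp_zero, one_mul, U_zero, one_apply_eq_self] at hc
  rw [← hc, ← mul_assoc, ← Real.exp_add]
  simp

theorem U_mul_neg (A : B →L[ℝ] B) (t : ℝ) : U A t * U A (-t) = 1 := by
  unfold U
  let _ : NormedAlgebra ℚ (B →L[ℝ] B) := NormedAlgebra.restrictScalars ℚ ℝ _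
  rw [← NormedSpace.exp_add_of_commute]
  · simp
  · exact ((Commute.refl A).smul_left _).smul_right _

theorem isUnit_U (A : B →L[ℝ] B) (t : ℝ) : IsUnit (U A t) :=
  ⟨⟨U A t, U A (-t), U_mul_neg A t, by simpa using U_mul_neg A (-t)⟩, rfl⟩

theorem inverse_U (A : B →L[ℝ] B) (t : ℝ) : Ring.inverse (U A t) = U A (-t) := by
  have := Ring.inverse_unit (⟨U A t, U A (-t), U_mul_neg A t, by simpa using U_mul_neg A (-t)⟩ :
    (B →L[ℝ] B)ˣ)
  exact this

end general

theorem le_of_deriv {g g' : ℝ → ℝ} (hg : ∀ t, HasDerivAt g (g' t) t) (h0 : ∀ t, 0 ≤ t → 0 ≤ g' t)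
    {t : ℝ} (ht : 0 ≤ t) : g 0 ≤ g t := by
  have : MonotoneOn g (Ici 0) := by
    apply monotoneOn_of_deriv_nonneg (convex_Ici 0)
    · exact fun x _ => (hg x).continuousAt.continuousWithinAt
    · exact fun x _ => (hg x).differentiableAt.differentiableWithinAt
    · intro x hx
      rw [(hg x).deriv]
      rw [interior_Ici] at hx
      exact h0 x (le_of_lt hx)
  exact this self_mem_Ici ht ht

theorem ode_bounds {a b : ℝ → ℝ} {x κ M : ℝ} (hx : 0 ≤ x) (hκ : 0 ≤ κ)
    (ha : ∀ t, HasDerivAt a (-x * a t + b t) t) (ha0 : a 0 = 0)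
    (hb : ∀ t, 0 ≤ t → 0 ≤ b t) (hbM : ∀ t, 0 ≤ t → κ * b t ≤ M) :
    ∀ t, 0 ≤ t → 0 ≤ a t ∧ κ * a t ≤ M * t ∧ x * κ * a t ≤ M := by
  have he : ∀ s, HasDerivAt (fun s => Real.exp (x * s)) (Real.exp (x * s) * x) s := by
    intro s
    simpa using ((hasDerivAt_id s).const_mul x).exp
  have h1 : ∀ t, 0 ≤ t → 0 ≤ a t := by
    intro t ht
    have := le_of_deriv (g := fun s => Real.exp (x * s) * a s)
      (g' := fun s => Real.exp (x * s) * b s)
      (fun s => ((he s).mul (ha s)).congr_deriv (by ring))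
      (fun s hs => mul_nonneg (Real.exp_pos _).le (hb s hs)) ht
    simp only [ha0, mul_zero] at this
    exact nonneg_of_mul_nonneg_right this (Real.exp_pos _) |> fun h => by
      by_contra hneg
      push Not at hneg
      nlinarith [Real.exp_pos (x * t)]
  intro t ht
  refine ⟨h1 t ht, ?_, ?_⟩
  · have := le_of_deriv (g := fun s => M * s - κ * a s)
      (g' := fun s => M - κ * (-x * a s + b s))
      (fun s => (((hasDerivAt_id s).const_mul M).sub ((ha s).const_mul κ)).congr_deriv (by simp))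
      (fun s hs => by
        have := hbM s hs
        have := mul_nonneg (mul_nonneg hκ hx) (h1 s hs)
        nlinarith) ht
    simp only [ha0, mul_zero, sub_zero] at this
    linarith
  · have := le_of_deriv (g := fun s => Real.exp (x * s) * (M - x * κ * a s))
      (g' := fun s => Real.exp (x * s) * (x * (M - κ * b s)))
      (fun s => ((he s).mul (((ha s).const_mul (x * κ)).const_sub M)).congr_deriv (by ring))
      (fun s hs => mul_nonneg (Real.exp_pos _).le (mul_nonneg hx (by linarith [hbM s hs]))) ht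
    simp only [ha0, mul_zero, sub_zero, Real.exp_zero, one_mul] at this
    have hM : 0 ≤ M := le_trans (mul_nonneg hκ (hb 0 le_rfl)) (hbM 0 le_rfl)
    by_contra hneg
    push Not at hneg
    nlinarith [Real.exp_pos (x * t)]

/-- the unit interval -/
abbrev I : Type := Set.Icc (0 : ℝ) 1

/-- the model space -/
abbrev Sp (N : ℕ) : Type := ℝ × ℝ × (Fin (N + 1) → C(I, ℝ))

/-- the cube of the coordinate -/
def X3 : C(I, ℝ) := ⟨fun y => (y : ℝ) ^ 3, by fun_prop⟩

/-- projection to the interval -/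
noncomputable def pr (y : ℝ) : I := Set.projIcc 0 1 zero_le_one y

theorem continuous_pr : Continuous pr := continuous_projIcc (h := zero_le_one)

theorem pr_of_mem {y : ℝ} (h : y ∈ Icc (0 : ℝ) 1) : (pr y : ℝ) = y := by
  simp [pr, Set.projIcc_of_mem _ h]

theorem cont_int (j : ℕ) (φ : C(I, ℝ)) : Continuous (fun y : ℝ => (y ^ 3) ^ j * φ (pr y)) :=
  (by fun_prop : Continuous fun y : ℝ => (y ^ 3) ^ j).mul (φ.continuous.comp continuous_pr)

/-- the weighted integrals -/
noncomputable def ell (j : ℕ) : C(I, ℝ) →L[ℝ] ℝ :=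
  LinearMap.mkContinuous
    { toFun := fun φ => ∫ y in (0 : ℝ)..1, (y ^ 3) ^ j * φ (pr y)
      map_add' := fun φ ψ => by
        rw [← intervalIntegral.integral_add ((cont_int j φ).intervalIntegrable _ _)
          ((cont_int j ψ).intervalIntegrable _ _)]
        simp [mul_add]
      map_smul' := fun c φ => by
        simp only [ContinuousMap.smul_apply, smul_eq_mul, RingHom.id_apply]
        rw [← intervalIntegral.integral_const_mul]
        congr 1
        funext y
        ring } 1 (fun φ => by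
      have := intervalIntegral.norm_integral_le_of_norm_le_const (a := 0) (b := 1) (C := ‖φ‖)
        (f := fun y : ℝ => (y ^ 3) ^ j * φ (pr y)) (fun y hy => by
          rw [Set.uIoc_of_le zero_le_one] at hy
          rw [norm_mul]
          have h1 : ‖(y ^ 3) ^ j‖ ≤ 1 := by
            rw [norm_pow, norm_pow, Real.norm_eq_abs, abs_of_pos hy.1]
            exact pow_le_one₀ (pow_nonneg hy.1.le _) (pow_le_one₀ hy.1.le hy.2)
          have h2 := φ.norm_coe_le_norm (pr y)
          nlinarith [norm_nonneg (φ (pr y)), norm_nonneg ((y ^ 3) ^ j)])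
      simpa using this)

theorem ell_apply (j : ℕ) (φ : C(I, ℝ)) :
    ell j φ = ∫ y in (0 : ℝ)..1, (y ^ 3) ^ j * φ (pr y) := rfl

theorem ell_mul (j : ℕ) (φ : C(I, ℝ)) : ell j (X3 * φ) = ell (j + 1) φ := by
  rw [ell_apply, ell_apply]
  apply intervalIntegral.integral_congr
  intro y hy
  rw [Set.uIcc_of_le zero_le_one] at hy
  simp only [ContinuousMap.mul_apply, X3, ContinuousMap.coe_mk, pr_of_mem hy]
  ring

theorem ell_const (c : ℝ) : ell 0 (c • (1 : C(I, ℝ))) = c := by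
  rw [ell_apply]
  simp

/-- coordinate of a stage -/
def st {N : ℕ} (i : Fin (N + 1)) : Sp N →L[ℝ] C(I, ℝ) :=
  (ContinuousLinearMap.proj i).comp
    ((ContinuousLinearMap.snd ℝ ℝ _).comp (ContinuousLinearMap.snd ℝ ℝ _))

/-- first coordinate -/
def c1 {N : ℕ} : Sp N →L[ℝ] ℝ := ContinuousLinearMap.fst ℝ ℝ _

/-- second coordinate -/
def c2 {N : ℕ} : Sp N →L[ℝ] ℝ :=
  (ContinuousLinearMap.fst ℝ ℝ _).comp (ContinuousLinearMap.snd ℝ ℝ _)

/-- the projection -/
def P (N : ℕ) : Sp N →L[ℝ] Sp N := c1.prod (c2.prod 0)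

/-- the free generator -/
noncomputable def L0 (N : ℕ) : Sp N →L[ℝ] Sp N :=
  (0 : Sp N →L[ℝ] ℝ).prod ((0 : Sp N →L[ℝ] ℝ).prod (ContinuousLinearMap.pi fun i =>
    (ContinuousLinearMap.mul ℝ C(I, ℝ) (-X3)).comp (st i)))

/-- the previous stage -/
noncomputable def prev {N : ℕ} (i : Fin (N + 1)) : Sp N →L[ℝ] C(I, ℝ) :=
  Fin.cases (motive := fun _ => Sp N →L[ℝ] C(I, ℝ)) (c1.smulRight (1 : C(I, ℝ)))
    (fun j => st j.castSucc) i

/-- the perturbation -/
noncomputable def L (N : ℕ) : Sp N →L[ℝ] Sp N :=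
  (0 : Sp N →L[ℝ] ℝ).prod (((ell (N + 1)).comp (st (Fin.last N))).prod
    (ContinuousLinearMap.pi fun i => prev i))

/-- point evaluation of a stage -/
noncomputable def ev {N : ℕ} (i : Fin (N + 1)) (y : I) : Sp N →L[ℝ] ℝ :=
  (ContinuousMap.evalCLM ℝ y).comp (st i)

variable {N : ℕ}

theorem sp_ext {v w : Sp N} (h1 : c1 v = c1 w) (h2 : c2 v = c2 w)
    (h3 : ∀ i y, ev i y v = ev i y w) : v = w := by
  refine Prod.ext h1 (Prod.ext h2 ?_)
  funext i
  ext y
  exact h3 i y

theorem ev_eq (i : Fin (N + 1)) (y : I) (v : Sp N) : ev i y v = st i v y := rfl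
@[simp] theorem c1_P (v : Sp N) : c1 (P N v) = c1 v := rfl
@[simp] theorem c2_P (v : Sp N) : c2 (P N v) = c2 v := rfl
@[simp] theorem st_P (i : Fin (N + 1)) (v : Sp N) : st i (P N v) = 0 := rfl
@[simp] theorem ev_P (i : Fin (N + 1)) (y : I) (v : Sp N) : ev i y (P N v) = 0 := rfl
@[simp] theorem c1_L0 (v : Sp N) : c1 (L0 N v) = 0 := rfl
@[simp] theorem c2_L0 (v : Sp N) : c2 (L0 N v) = 0 := rfl
theorem st_L0 (i : Fin (N + 1)) (v : Sp N) : st i (L0 N v) = -(X3 * st i v) := by
  change (-X3) * st i v = _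
  ring
theorem ev_L0 (i : Fin (N + 1)) (y : I) (v : Sp N) :
    ev i y (L0 N v) = -(y : ℝ) ^ 3 * ev i y v := by
  rw [ev_eq, st_L0, ev_eq]
  simp [X3]
@[simp] theorem c1_L (v : Sp N) : c1 (L N v) = 0 := rfl
theorem c2_L (v : Sp N) : c2 (L N v) = ell (N + 1) (st (Fin.last N) v) := rfl
theorem st_L (i : Fin (N + 1)) (v : Sp N) : st i (L N v) = prev i v := rfl
theorem st_L_zero (v : Sp N) : st 0 (L N v) = c1 v • (1 : C(I, ℝ)) := rfl
theorem st_L_succ (j : Fin N) (v : Sp N) : st j.succ (L N v) = st j.castSucc v := rfl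
theorem ev_L_zero (y : I) (v : Sp N) : ev 0 y (L N v) = c1 v := by
  rw [ev_eq, st_L_zero]
  simp
theorem ev_L_succ (j : Fin N) (y : I) (v : Sp N) : ev j.succ y (L N v) = ev j.castSucc y v := rfl

theorem c1_U0 (t : ℝ) (v : Sp N) : c1 (U (L0 N) t v) = c1 v := by
  simpa using eigen_U (L0 N) c1 0 (by simp) v t
theorem c2_U0 (t : ℝ) (v : Sp N) : c2 (U (L0 N) t v) = c2 v := by
  simpa using eigen_U (L0 N) c2 0 (by simp) v t
theorem ev_U0 (i : Fin (N + 1)) (y : I) (t : ℝ) (v : Sp N) :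
    ev i y (U (L0 N) t v) = Real.exp (-(y : ℝ) ^ 3 * t) * ev i y v :=
  eigen_U (L0 N) (ev i y) _ (ev_L0 i y) v t

end Pool.Agent.H454Z.WC
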