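import Pool.Agent.H454Z.WC.Model

set_option autoImplicit false

namespace Pool.Agent.H454Z.WC

open MeasureTheory Set

variable {N : ℕ}

theorem Lt_apply (t : ℝ) (v : Sp N) :
    Lt (L0 N) (L N) t v = U (L0 N) (-t) (L N (U (L0 N) t v)) := by
  unfold Lt
  rw [inverse_U]
  rfl

theorem c1_Lt (t : ℝ) (v : Sp N) : c1 (Lt (L0 N) (L N) t v) = 0 := by
  rw [Lt_apply, c1_U0, c1_L]

theorem c2_Lt (t : ℝ) (v : Sp N) : c2 (Lt (L0 N) (L N) t v) =
    ∫ y in (0 : ℝ)..1, (y ^ 3) ^ (N + 1) *
      (Real.exp (-(pr y : ℝ) ^ 3 * t) * ev (Fin.last N) (pr y) v) := by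
  rw [Lt_apply, c2_U0, c2_L, ell_apply]
  simp only [← ev_eq, ev_U0]

theorem ev_Lt_zero (t : ℝ) (y : I) (v : Sp N) :
    ev 0 y (Lt (L0 N) (L N) t v) = Real.exp ((y : ℝ) ^ 3 * t) * c1 v := by
  rw [Lt_apply, ev_U0, ev_L_zero, c1_U0]
  congr 2
  ring

theorem ev_Lt_succ (t : ℝ) (j : Fin N) (y : I) (v : Sp N) :
    ev j.succ y (Lt (L0 N) (L N) t v) = ev j.castSucc y v := by
  rw [Lt_apply, ev_U0, ev_L_succ, ev_U0, ← mul_assoc, ← Real.exp_add]
  simp

/-- the last time of the list `s :: l` -/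
def lastT : ℝ → List ℝ → ℝ
  | s, [] => s
  | _, r :: l => lastT r l

/-- the correlation function -/
noncomputable def corr (j : ℕ) (u : ℝ) : ℝ :=
  ∫ y in (0 : ℝ)..1, (y ^ 3) ^ j * Real.exp (-y ^ 3 * u)

theorem corr_nonneg (j : ℕ) (u : ℝ) : 0 ≤ corr j u := by
  apply intervalIntegral.integral_nonneg zero_le_one
  intro y hy
  exact mul_nonneg (pow_nonneg (pow_nonneg hy.1 _) _) (Real.exp_pos _).le

theorem prod_cons (s : ℝ) (l : List ℝ) (v : Sp N) :
    prodL (L0 N) (L N) (s :: l) v = Lt (L0 N) (L N) s (prodL (L0 N) (L N) l v) := by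
  simp [prodL]

theorem prod_coord (x : Sp N) (l : List ℝ) : ∀ s : ℝ,
    c1 (prodL (L0 N) (L N) (s :: l) (P N x)) = 0 ∧
    (∀ i y, ev i y (prodL (L0 N) (L N) (s :: l) (P N x)) =
      if (i : ℕ) = l.length then Real.exp ((y : ℝ) ^ 3 * lastT s l) * c1 x else 0) ∧
    c2 (prodL (L0 N) (L N) (s :: l) (P N x)) =
      if l.length = N + 1 then corr (N + 1) (s - lastT s l) * c1 x else 0 := by
  induction l with
  | nil =>
    intro s
    have e : prodL (L0 N) (L N) [] (P N x) = P N x := by simp [prodL]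
    rw [prod_cons, e]
    refine ⟨c1_Lt _ _, ?_, ?_⟩
    · intro i y
      refine Fin.cases ?_ (fun j => ?_) i
      · simp [ev_Lt_zero, lastT]
      · simp [ev_Lt_succ]
    · simp [c2_Lt]
  | cons r l ih =>
    intro s
    obtain ⟨h1, h2, -⟩ := ih r
    rw [prod_cons]
    refine ⟨c1_Lt _ _, ?_, ?_⟩
    · intro i y
      refine Fin.cases ?_ (fun j => ?_) i
      · simp [ev_Lt_zero, h1]
      · rw [ev_Lt_succ, h2]
        simp [lastT]
    · rw [c2_Lt]
      simp only [h2, Fin.val_last, List.length_cons, add_left_inj, lastT]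
      by_cases h : N = l.length
      · rw [if_pos h.symm]
        simp only [if_pos h]
        unfold corr
        rw [← intervalIntegral.integral_mul_const]
        apply intervalIntegral.integral_congr
        intro y hy
        rw [Set.uIcc_of_le zero_le_one] at hy
        simp only [pr_of_mem hy]
        rw [← mul_assoc (Real.exp _), ← Real.exp_add, mul_assoc]
        congr 3
        ring
      · rw [if_neg (Ne.symm h)]
        simp [if_neg h]

theorem norm_P_le (w : Sp N) (C : ℝ) (h1 : c1 w = 0) (h2 : |c2 w| ≤ C) : ‖P N w‖ ≤ C := by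
  have hC : 0 ≤ C := le_trans (abs_nonneg _) h2
  have : P N w = (c1 w, c2 w, 0) := rfl
  rw [this, h1]
  simp [Prod.norm_def, h2, hC]

theorem abs_c1_le (x : Sp N) : |c1 x| ≤ ‖x‖ := norm_fst_le x

theorem norm_prod_le (s : ℝ) (l : List ℝ) :
    ‖P N * prodL (L0 N) (L N) (s :: l) * P N‖ ≤
      if l.length = N + 1 then corr (N + 1) (s - lastT s l) else 0 := by
  have h0 : 0 ≤ (if l.length = N + 1 then corr (N + 1) (s - lastT s l) else 0) := by
    split_ifs
    · exact corr_nonneg _ _
    · exact le_rfl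
  apply ContinuousLinearMap.opNorm_le_bound _ h0
  intro x
  obtain ⟨h1, -, h3⟩ := prod_coord x l s
  apply norm_P_le _ _ h1
  change |c2 (prodL (L0 N) (L N) (s :: l) (P N x))| ≤ _
  rw [h3]
  split_ifs
  · rw [abs_mul, abs_of_nonneg (corr_nonneg _ _)]
    exact mul_le_mul_of_nonneg_left (abs_c1_le x) (corr_nonneg _ _)
  · simp

theorem iterInt_mono (k : ℕ) : ∀ (t : ℝ) (F G : List ℝ → ENNReal),
    (∀ l, l.length = k → F l ≤ G l) → iterInt k t F ≤ iterInt k t G := by
  induction k with
  | zero => exact fun t F G h => h [] rfl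
  | succ k ih =>
    intro t F G h
    simp only [iterInt]
    apply lintegral_mono
    intro s
    exact ih s _ _ (fun l hl => h _ (by simp [hl]))

theorem iterInt_zero (k : ℕ) : ∀ t : ℝ, iterInt k t (fun _ => 0) = 0 := by
  induction k with
  | zero => exact fun t => rfl
  | succ k ih =>
    intro t
    simp [iterInt, ih]

/-- the correlation function as a lower integral -/
noncomputable def corrE (j : ℕ) (u : ℝ) : ENNReal :=
  ∫⁻ y in Ioc (0 : ℝ) 1, ENNReal.ofReal ((y ^ 3) ^ j * Real.exp (-y ^ 3 * u))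

theorem ofReal_corr (j : ℕ) (u : ℝ) : ENNReal.ofReal (corr j u) = corrE j u := by
  unfold corr corrE
  rw [intervalIntegral.integral_of_le zero_le_one]
  apply ofReal_integral_eq_lintegral_ofReal
  · apply Continuous.integrableOn_Ioc
    fun_prop
  · filter_upwards [ae_restrict_mem measurableSet_Ioc] with y hy
    exact mul_nonneg (pow_nonneg (pow_nonneg hy.1.le _) _) (Real.exp_pos _).le

theorem lint_exp {x : ℝ} (hx : 0 < x) (j : ℕ) (t s : ℝ) :
    ∫⁻ r in Iio s, ENNReal.ofReal (x ^ (j + 1) * Real.exp (-x * (t - r))) =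
      ENNReal.ofReal (x ^ j * Real.exp (-x * (t - s))) := by
  have e : ∀ r, x ^ (j + 1) * Real.exp (-x * (t - r)) =
      (x ^ (j + 1) * Real.exp (-x * t)) * Real.exp (x * r) := by
    intro r
    rw [mul_assoc, ← Real.exp_add]
    congr 2
    ring
  simp only [e]
  rw [Measure.restrict_congr_set Iio_ae_eq_Iic, ← ofReal_integral_eq_lintegral_ofReal]
  · rw [integral_const_mul, integral_exp_mul_Iic hx]
    congr 1
    have : Real.exp (-x * (t - s)) = Real.exp (-x * t) * Real.exp (x * s) := by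
      rw [← Real.exp_add]
      congr 1
      ring
    rw [this]
    field_simp
    ring
  · exact (integrableOn_exp_mul_Iic hx s).const_mul _
  · filter_upwards with r
    positivity

theorem lint_corrE (j : ℕ) (t s : ℝ) :
    ∫⁻ r in Iio s, corrE (j + 1) (t - r) = corrE j (t - s) := by
  unfold corrE
  rw [lintegral_lintegral_swap]
  · apply setLIntegral_congr_fun measurableSet_Ioc
    intro y hy
    exact lint_exp (pow_pos hy.1 3) j t s
  · apply Measurable.aemeasurable
    apply ENNReal.measurable_ofReal.comp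
    apply Continuous.measurable
    fun_prop

theorem iterInt_corr (t : ℝ) (k : ℕ) : ∀ (j : ℕ) (s : ℝ),
    iterInt k s (fun l => corrE (j + k) (t - lastT s l)) = corrE j (t - s) := by
  induction k with
  | zero => exact fun j s => rfl
  | succ k ih =>
    intro j s
    simp only [iterInt, lastT]
    rw [← lint_corrE]
    congr 1
    funext r
    rw [← ih (j + 1) r]
    congr 1
    funext l
    congr 1
    omega

theorem inner_le_one (k : ℕ) (t : ℝ) :
    iterInt k t (fun l => ‖P N * prodL (L0 N) (L N) (t :: l) * P N‖ₑ) ≤ 1 := by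
  by_cases hk : k = N + 1
  · subst hk
    refine le_trans (iterInt_mono _ t _ (fun l => corrE (0 + (N + 1)) (t - lastT t l)) ?_) ?_
    · intro l hl
      have := norm_prod_le (N := N) t l
      rw [if_pos hl] at this
      rw [zero_add, ← ofReal_corr, ← ofReal_norm]
      exact ENNReal.ofReal_le_ofReal this
    · rw [iterInt_corr]
      simp [corrE]
  · refine le_trans (iterInt_mono _ t _ (fun _ => 0) ?_) ?_
    · intro l hl
      have := norm_prod_le (N := N) t l
      rw [if_neg (by omega)] at this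
      rw [← ofReal_norm, ENNReal.ofReal_of_nonpos this]
    · simp [iterInt_zero]

theorem full_eq_zero (k : ℕ) (hk1 : 1 ≤ k) (hk : k ≤ N + 1) (t : ℝ) :
    iterInt k t (fun l => ‖P N * prodL (L0 N) (L N) l * P N‖ₑ) = 0 := by
  apply le_antisymm _ zero_le
  refine le_trans (iterInt_mono _ t _ (fun _ => 0) ?_) (iterInt_zero k t).le
  intro l hl
  rcases l with _ | ⟨s, l⟩
  · simp at hl
    omega
  · have := norm_prod_le (N := N) s l
    simp only [List.length_cons] at hl
    rw [if_neg (by omega)] at this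
    rw [← ofReal_norm, ENNReal.ofReal_of_nonpos this]

theorem P_mul_P : P N * P N = P N := by
  refine ContinuousLinearMap.ext fun v => ?_
  rfl

theorem P_L_P : P N * L N * P N = 0 := by
  refine ContinuousLinearMap.ext fun v => ?_
  apply sp_ext
  · rfl
  · change c2 (L N (P N v)) = 0
    rw [c2_L, st_P, map_zero]
  · intro i y
    rfl

theorem U0_comm (t : ℝ) : U (L0 N) t * P N = P N * U (L0 N) t := by
  refine ContinuousLinearMap.ext fun v => ?_
  apply sp_ext
  · change c1 (U (L0 N) t (P N v)) = c1 (U (L0 N) t v)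
    simp [c1_U0]
  · change c2 (U (L0 N) t (P N v)) = c2 (U (L0 N) t v)
    simp [c2_U0]
  · intro i y
    change ev i y (U (L0 N) t (P N v)) = 0
    simp [ev_U0]

theorem finite_range : FiniteDimensional ℝ (LinearMap.range (P N : Sp N →ₗ[ℝ] Sp N)) := by
  let j : ℝ × ℝ →ₗ[ℝ] Sp N :=
    (LinearMap.fst ℝ ℝ ℝ).prod ((LinearMap.snd ℝ ℝ ℝ).prod 0)
  have : LinearMap.range (P N : Sp N →ₗ[ℝ] Sp N) ≤ LinearMap.range j := by
    rintro _ ⟨v, rfl⟩
    exact ⟨(c1 v, c2 v), rfl⟩
  exact Submodule.finiteDimensional_of_le this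

end Pool.Agent.H454Z.WC
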